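import Pool.Agent.Helper478.CE.Sys

set_option autoImplicit false

namespace Pool.Agent.Helper478.CE

open Set Filter Topology Cardinal

section

variable {Y : Type} [NormedAddCommGroup Y] [NormedSpace ℝ Y] {H : (I → ℝ) → Y}
  {A : Set L} {Is : L → Set I} {Ψ : L → Set (Y →L[ℝ] ℝ)} {φ : I → Y →L[ℝ] ℝ}

theorem exists_a (S : Sys H A Is Ψ φ) (i : I) (N : ℕ) (hN : 1 ≤ N) :
    ∃ a ∈ K, H a = (1 / (N : ℝ)) • H (chi i) := by
  have hN' : (0 : ℝ) < N := by exact_mod_cast hN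
  have h1 : (1 : ℝ) / N ≤ 1 := by
    rw [div_le_one hN']
    exact_mod_cast hN
  have h := S.conv (mem_image_of_mem H zero_mem) (mem_image_of_mem H (chi_mem i))
    (a := 1 - 1 / (N : ℝ)) (b := 1 / (N : ℝ)) (by linarith) (by positivity) (by ring)
  obtain ⟨a, ha, hHa⟩ := h
  refine ⟨a, ha, ?_⟩
  rw [hHa, S.zero, smul_zero, zero_add]

/-- `chi i` vanishes on the closed sets of other labels. -/
theorem psi_chi (S : Sys H A Is Ψ φ) {i : I} (hi : i.2 ∈ A) {η : L} (hη : η ∈ A)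
    (hne : i.2 ≠ η) {ψ : Y →L[ℝ] ℝ} (hψ : ψ ∈ Ψ η) : ψ (H (chi i)) = 0 := by
  have h1 : ψ (H (chi i)) = ψ (H 0) := by
    apply S.p2' η ψ hψ (chi i) (chi_mem i) 0 zero_mem
    intro j hj
    have : j ≠ i := by
      intro h
      exact S.free η hη i.2 hi (Ne.symm hne) j hj (by rw [h])
    rw [chi_ne this]
    rfl
  rw [h1, S.zero, map_zero]

theorem claim1 (S : Sys H A Is Ψ φ) {i : I} (hi : i.2 ∈ A) {η : L} (hη : η ∈ A)
    (hne : i.2 ≠ η) {a : I → ℝ} (ha : a ∈ K) {c : ℝ} (hHa : H a = c • H (chi i)) :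
    ∀ j ∈ Is η, a j = 0 := by
  intro j hj
  have := S.p3 η a ha 0 zero_mem (by
    intro ψ hψ
    rw [hHa, map_smul, psi_chi S hi hη hne hψ, S.zero, map_zero, smul_zero]) j hj
  rw [this]
  rfl

theorem exists_other (S : Sys H A Is Ψ φ) (ξ : L) : ∃ η ∈ A, ξ ≠ η := by
  by_contra h
  push Not at h
  apply S.unc
  apply (countable_singleton ξ).mono
  intro η hη
  exact (h η hη).symm

theorem claim2 (S : Sys H A Is Ψ φ) {i : I} (hi : i.2 ∈ A) {N : ℕ} (hN : 1 ≤ N)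
    {a : I → ℝ} (ha : a ∈ K) (hHa : H a = (1 / (N : ℝ)) • H (chi i))
    {k : I} (hk : k ∈ Is i.2) {m : ℕ} (hm : 1 ≤ m) (hpre : pre i.1 m ≠ pre k.1 m) :
    a k ≤ e m := by
  obtain ⟨η, hη, hne⟩ := exists_other S i.2
  have hN' : (0 : ℝ) < N := by exact_mod_cast hN
  have h1N : (1 : ℝ) / N ≤ 1 := by
    rw [div_le_one hN']
    exact_mod_cast hN
  have hx := xx_mem k.1 m hm η i hne hpre
  have hxi := xx_add_mem k.1 m hm η i hne hpre
  obtain ⟨p, hp, hHp⟩ := S.conv (mem_image_of_mem H hx) (mem_image_of_mem H hxi)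
    (a := 1 - 1 / (N : ℝ)) (b := 1 / (N : ℝ)) (by linarith) (by positivity) (by ring)
  have hxx0 : ∀ j ∈ Is i.2, xx k.1 m η j = 0 := by
    intro j hj
    unfold xx
    rw [if_neg]
    intro hj'
    obtain ⟨q, hq⟩ := mem_XX hj'
    exact S.free i.2 hi η hη hne j hj (by rw [hq])
  have hpa : ∀ j ∈ Is i.2, p j = a j := by
    apply S.p3 i.2 p hp a ha
    intro ψ hψ
    have h1 : ψ (H (xx k.1 m η)) = 0 := by
      rw [S.p2' i.2 ψ hψ _ hx 0 zero_mem (fun j hj => by rw [hxx0 j hj]; rfl), S.zero, map_zero]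
    have h2 : ψ (H (xx k.1 m η + chi i)) = ψ (H (chi i)) := by
      apply S.p2' i.2 ψ hψ _ hxi _ (chi_mem i)
      intro j hj
      show xx k.1 m η j + chi i j = chi i j
      rw [hxx0 j hj, zero_add]
    rw [hHp, hHa, map_add, map_smul, map_smul, map_smul, h1, h2, smul_zero, zero_add]
  have hpx : ∀ j ∈ Is η, p j = xx k.1 m η j := by
    apply S.p3 η p hp _ hx
    intro ψ hψ
    have h2 : ψ (H (xx k.1 m η + chi i)) = ψ (H (xx k.1 m η)) := by
      apply S.p2' η ψ hψ _ hxi _ hx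
      intro j hj
      show xx k.1 m η j + chi i j = xx k.1 m η j
      have : j ≠ i := by
        intro h
        exact S.free η hη i.2 hi (Ne.symm hne) j hj (by rw [h])
      rw [chi_ne this, add_zero]
    rw [hHp, map_add, map_smul, map_smul, h2, ← add_smul, sub_add_cancel, one_smul]
  rw [← hpa k hk]
  apply key2 p hp k.1 m η
  · intro j hj
    have hj2 : j ∈ Is η := by
      obtain ⟨q, hq⟩ := mem_XX hj
      have := S.mem j
      rw [hq] at this ⊢
      exact this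
    rw [hpx j hj2]
    unfold xx
    rw [if_pos hj]
  · intro hk'
    obtain ⟨q, hq⟩ := mem_XX hk'
    exact S.free i.2 hi η hη hne k hk (by rw [hq])
  · rfl

theorem claim3 (S : Sys H A Is Ψ φ) (R : Finset ℕ) (b : ℕ → B) (ζ : ℕ → L)
    (hζ : ∀ r ∈ R, ∀ r' ∈ R, ζ r = ζ r' → r = r') (hζA : ∀ r ∈ R, ζ r ∈ A) (m : ℕ) (hm : 1 ≤ m)
    (t : List ℕ) (ht : ∀ r ∈ R, pre (b r) m = t) (hR : 2 ^ m < R.card)
    (a : ℕ → I → ℝ) (haK : ∀ r ∈ R, a r ∈ K)
    (hHa : ∀ r ∈ R, H (a r) = (1 / (R.card : ℝ)) • H (chi (b r, ζ r))) :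
    ∃ r ∈ R, ∀ k ∈ Is (ζ r), a r k ≤ 2 * e m := by
  classical
  by_contra hcon
  push Not at hcon
  have hR1 : 1 ≤ R.card := by
    have : 1 ≤ 2 ^ m := Nat.one_le_two_pow
    omega
  have hR0 : (0 : ℝ) < R.card := by exact_mod_cast hR1
  choose! k hk1 hk2 using hcon
  have hem := e_pos m
  -- the coordinates lie below `t`
  have hkt : ∀ r ∈ R, pre (k r).1 m = t := by
    intro r hr
    by_contra hne
    have h1 : pre ((b r, ζ r) : I).1 m ≠ pre (k r).1 m := by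
      intro h
      exact hne (h.symm.trans (ht r hr))
    have h2 := claim2 S (i := (b r, ζ r)) (hζA r hr) hR1 (haK r hr) (hHa r hr) (hk1 r hr) hm h1
    have h3 := hk2 r hr
    linarith
  have hkinj : ∀ r ∈ R, ∀ r' ∈ R, k r = k r' → r = r' := by
    intro r hr r' hr' h
    by_contra hne
    have h1 : ((b r, ζ r) : I).2 ≠ ζ r' := fun h => hne (hζ r hr r' hr' h)
    have h2 := claim1 S (i := (b r, ζ r)) (hζA r hr) (hζA r' hr') h1 (haK r hr) (hHa r hr) (k r')
      (hk1 r' hr')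
    rw [← h] at h2
    have h3 := hk2 r hr
    linarith
  -- the average
  have hsum := S.conv.sum_mem (t := R) (w := fun _ => 1 / (R.card : ℝ))
    (z := fun r => H (chi (b r, ζ r))) (fun _ _ => by positivity)
    (by rw [Finset.sum_const, nsmul_eq_mul]; field_simp)
    (fun r _ => mem_image_of_mem H (chi_mem _))
  obtain ⟨p, hp, hHp⟩ := hsum
  have hpa : ∀ r ∈ R, ∀ j ∈ Is (ζ r), p j = a r j := by
    intro r hr
    apply S.p3 (ζ r) p hp _ (haK r hr)
    intro ψ hψ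
    rw [hHp, hHa r hr, map_sum, Finset.sum_eq_single_of_mem r hr]
    intro r' hr' hne
    rw [map_smul]
    have h1 : ((b r', ζ r') : I).2 ≠ ζ r := fun h => hne (hζ r' hr' r hr h)
    rw [psi_chi S (i := (b r', ζ r')) (hζA r' hr') (hζA r hr) h1 hψ, smul_zero]
  have h1 := hp.2 m t (R.image k) (by
    intro i hi
    obtain ⟨r, hr, rfl⟩ := Finset.mem_image.1 hi
    exact hkt r hr)
  rw [Finset.sum_image (fun r hr r' hr' h => hkinj r hr r' hr' h)] at h1
  have h2 : (R.card : ℝ) * e m ≤ ∑ r ∈ R, max (p (k r) - e m) 0 := by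
    rw [← nsmul_eq_mul, ← Finset.sum_const]
    refine Finset.sum_le_sum fun r hr => ?_
    rw [hpa r hr (k r) (hk1 r hr)]
    refine le_max_of_le_left ?_
    have := hk2 r hr
    linarith
  have h3 : (2 : ℝ) ^ m < R.card := by exact_mod_cast hR
  have h4 := pow_mul_e m
  have h5 : (2 : ℝ) ^ m * e m < R.card * e m := mul_lt_mul_of_pos_right h3 hem
  linarith

/-- A Baire-category-type statement, by direct recursion. -/
theorem claim4 (S : Sys H A Is Ψ φ) (ξ : L) :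
    ∃ s : List ℕ × ℕ, ∀ j : ℕ, ∃ b : B, pre b (s.1.length + 1) = s.1 ++ [j] ∧
      1 / ((s.2 : ℝ) + 1) ≤ ‖H (chi (b, ξ))‖ := by
  by_contra hcon
  push Not at hcon
  choose j hj using hcon
  let P : ℕ → List ℕ := fun n => Nat.rec [] (fun n l => l ++ [j (l, n)]) n
  have hP0 : P 0 = [] := rfl
  have hPs : ∀ n, P (n + 1) = P n ++ [j (P n, n)] := fun n => rfl
  let b : B := fun n => j (P n, n)
  have hpre : ∀ n, pre b n = P n := by
    intro n
    induction n with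
    | zero => rfl
    | succ n ih => rw [pre_succ, ih, hPs]
  have hlen : ∀ n, (P n).length = n := fun n => by rw [← hpre n, pre_length]
  have hlt : ∀ n : ℕ, ‖H (chi (b, ξ))‖ < 1 / ((n : ℝ) + 1) := by
    intro n
    apply hj (P n, n) b
    show pre b ((P n).length + 1) = P n ++ [j (P n, n)]
    rw [hlen, hpre, hPs]
  have h0 : 0 < ‖H (chi (b, ξ))‖ := norm_pos_iff.2 (S.ne _)
  obtain ⟨n, hn⟩ := exists_nat_one_div_lt h0
  exact absurd (hlt n) (not_lt.2 hn.le)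

theorem claim5 (S : Sys H A Is Ψ φ) :
    ∃ (s : List ℕ × ℕ) (g : ℕ × ℕ → L), Function.Injective g ∧ (∀ p, g p ∈ A) ∧
      ∀ p, ∀ j : ℕ, ∃ b : B, pre b (s.1.length + 1) = s.1 ++ [j] ∧
      1 / ((s.2 : ℝ) + 1) ≤ ‖H (chi (b, g p))‖ := by
  classical
  choose s hs using claim4 S
  have hunc : ∃ s0, ¬ (A ∩ {ξ | s ξ = s0}).Countable := by
    by_contra h
    push Not at h
    apply S.unc
    refine (countable_iUnion h).mono ?_
    intro ξ hξ
    exact mem_iUnion.2 ⟨s ξ, hξ, rfl⟩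
  obtain ⟨s0, hs0⟩ := hunc
  have hinf : (A ∩ {ξ | s ξ = s0}).Infinite := by
    intro h
    exact hs0 h.countable
  let g0 := hinf.natEmbedding
  refine ⟨s0, fun p => (g0 (Nat.pair p.1 p.2)).1, ?_, ?_, ?_⟩
  · intro p q h
    have h1 : Nat.pair p.1 p.2 = Nat.pair q.1 q.2 := g0.injective (Subtype.ext h)
    have h2 := Nat.pair_eq_pair.1 h1
    exact Prod.ext h2.1 h2.2
  · intro p
    exact (g0 (Nat.pair p.1 p.2)).2.1
  · intro p j
    have h : s (g0 (Nat.pair p.1 p.2)).1 = s0 := (g0 (Nat.pair p.1 p.2)).2.2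
    have h' := hs (g0 (Nat.pair p.1 p.2)).1 j
    rw [h] at h'
    exact h'

end

end Pool.Agent.Helper478.CE
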