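import Mathlib

set_option autoImplicit false

namespace Pool.Agent.Helper478.CE

open Set

/-- Baire space. -/
abbrev B : Type := ℕ → ℕ

/-- A large label set. -/
abbrev L : Type := Set (Set B)

/-- The index set. -/
abbrev I : Type := B × L

/-- The initial segment of length `n`. -/
def pre (b : B) (n : ℕ) : List ℕ := (List.range n).map b

/-- `2^{-n}`. -/
noncomputable def e (n : ℕ) : ℝ := (1 / 2) ^ n

/-- The compact convex set. -/
def K : Set (I → ℝ) :=
  {f | (∀ i, 0 ≤ f i ∧ f i ≤ 1) ∧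
    ∀ (n : ℕ) (s : List ℕ) (F : Finset I), (∀ i ∈ F, pre i.1 n = s) →
      ∑ i ∈ F, max (f i - e n) 0 ≤ 1}

end Pool.Agent.Helper478.CE
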