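import Pool.Agent.Helper478.CE.Claims

set_option autoImplicit false

namespace Pool.Agent.Helper478.CE

open Set Filter Topology Cardinal

section

variable {Y : Type} [NormedAddCommGroup Y] [NormedSpace ℝ Y] {H : (I → ℝ) → Y}
  {A : Set L} {Is : L → Set I} {Ψ : L → Set (Y →L[ℝ] ℝ)} {φ : I → Y →L[ℝ] ℝ}

theorem final_contra (S : Sys H A Is Ψ φ) : False := by
  classical
  obtain ⟨s, g, hg, hgA, hgb⟩ := claim5 S
  obtain ⟨m, hm⟩ : ∃ m, m = s.1.length + 1 := ⟨_, rfl⟩
  have hm1 : 1 ≤ m := by omega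
  obtain ⟨N, hN⟩ : ∃ N, N = 2 ^ m + 1 := ⟨_, rfl⟩
  have hN1 : 1 ≤ N := by rw [hN]; exact Nat.le_add_left 1 _
  have hN0 : (0 : ℝ) < N := by exact_mod_cast hN1
  choose b hb1 hb2 using hgb
  choose a haK hHa using fun i => exists_a S i N hN1
  have hsel : ∀ j : ℕ, ∃ r, ∀ k ∈ Is (g (j, r)), a (b (j, r) j, g (j, r)) k ≤ 2 * e m := by
    intro j
    obtain ⟨r, _, h⟩ := claim3 S (Finset.range N) (fun r => b (j, r) j) (fun r => g (j, r))
      (by
        intro r _ r' _ h
        have := hg h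
        exact congrArg Prod.snd this)
      (fun r _ => hgA _) m hm1 (s.1 ++ [j])
      (by intro r _; rw [hm]; exact hb1 _ _)
      (by rw [Finset.card_range, hN]; omega)
      (fun r => a (b (j, r) j, g (j, r)))
      (fun r _ => haK _)
      (by intro r _; rw [Finset.card_range]; exact hHa _)
    exact ⟨r, h⟩
  choose r hr using hsel
  obtain ⟨ζ, hζ⟩ : ∃ ζ : ℕ → L, ζ = fun j => g (j, r j) := ⟨_, rfl⟩
  have hζinj : ∀ j j', ζ j = ζ j' → j = j' := by
    intro j j' h
    rw [hζ] at h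
    exact congrArg Prod.fst (hg h)
  have hζA : ∀ j, ζ j ∈ A := by
    intro j
    rw [hζ]
    exact hgA _
  obtain ⟨ii, hii⟩ : ∃ ii : ℕ → I, ii = fun j => (b (j, r j) j, ζ j) := ⟨_, rfl⟩
  have hii2 : ∀ j, (ii j).2 = ζ j := by intro j; rw [hii]
  have hii1 : ∀ j, pre (ii j).1 m = s.1 ++ [j] := by
    intro j
    rw [hii, hm]
    exact hb1 _ _
  have hiiA : ∀ j, (ii j).2 ∈ A := by
    intro j
    rw [hii2]
    exact hζA j
  have hiin : ∀ j, 1 / ((s.2 : ℝ) + 1) ≤ ‖H (chi (ii j))‖ := by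
    intro j
    rw [hii, hζ]
    exact hb2 _ _
  obtain ⟨aa, haa⟩ : ∃ aa : ℕ → I → ℝ, aa = fun j => a (ii j) := ⟨_, rfl⟩
  have haaK : ∀ j, aa j ∈ K := by
    intro j
    rw [haa]
    exact haK _
  have hHaa : ∀ j, H (aa j) = (1 / (N : ℝ)) • H (chi (ii j)) := by
    intro j
    rw [haa]
    exact hHa _
  have haa_le : ∀ j, ∀ k ∈ Is (ζ j), aa j k ≤ e s.1.length := by
    intro j k hk
    have h1 := hr j k (by rw [hζ] at hk; exact hk)
    have h2 : 2 * e m = e s.1.length := by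
      rw [hm, e_succ]
      ring
    rw [← h2, haa]
    subst hii
    subst hζ
    exact h1
  have haa0 : ∀ j j', j ≠ j' → ∀ k ∈ Is (ζ j'), aa j k = 0 := by
    intro j j' hne k hk
    exact claim1 S (hiiA j) (hζA j') (fun h => hne (hζinj j j' ((hii2 j).symm.trans h)))
      (haaK j) (hHaa j) k hk
  have haapre : ∀ j, ∀ n, 1 ≤ n → ∀ k ∈ Is (ζ j), e n < aa j k →
      pre k.1 n = pre (ii j).1 n := by
    intro j n hn k hk hlt
    by_contra hne
    have := claim2 S (hiiA j) hN1 (haaK j) (hHaa j) (k := k) (by rw [hii2]; exact hk) hn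
      (Ne.symm hne)
    linarith
  have huniq : ∀ k j j', k ∈ Is (ζ j) → aa j k ≠ 0 → k ∈ Is (ζ j') → aa j' k ≠ 0 → j = j' := by
    intro k j j' _ h2 h3 _
    by_contra hne
    exact h2 (haa0 j j' hne k h3)
  -- the glued vectors
  obtain ⟨P, hP⟩ : ∃ P : ℕ → I → ℕ → Prop,
    P = fun n k j => n ≤ j ∧ k ∈ Is (ζ j) ∧ aa j k ≠ 0 := ⟨_, rfl⟩
  have hPi : ∀ n k j, P n k j ↔ (n ≤ j ∧ k ∈ Is (ζ j) ∧ aa j k ≠ 0) := by
    intro n k j
    rw [hP]
  obtain ⟨z, hz⟩ : ∃ z : ℕ → I → ℝ,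
    z = fun n k => if h : ∃ j, P n k j then aa (Classical.choose h) k else 0 := ⟨_, rfl⟩
  have hz1 : ∀ n k j, P n k j → z n k = aa j k := by
    intro n k j hj
    have hex : ∃ j, P n k j := ⟨j, hj⟩
    have h1 := Classical.choose_spec hex
    rw [hz]
    show (if h : ∃ j, P n k j then aa (Classical.choose h) k else 0) = aa j k
    rw [dif_pos hex]
    have h1' := (hPi _ _ _).1 h1
    have hj' := (hPi _ _ _).1 hj
    have := huniq k (Classical.choose hex) j h1'.2.1 h1'.2.2 hj'.2.1 hj'.2.2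
    rw [this]
  have hz0 : ∀ n k, (¬ ∃ j, P n k j) → z n k = 0 := by
    intro n k h
    rw [hz]
    show (if h : ∃ j, P n k j then aa (Classical.choose h) k else 0) = 0
    rw [dif_neg h]
  have hz01 : ∀ n k, 0 ≤ z n k ∧ z n k ≤ 1 := by
    intro n k
    by_cases h : ∃ j, P n k j
    · obtain ⟨j, hj⟩ := h
      rw [hz1 n k j hj]
      exact (haaK j).1 k
    · rw [hz0 n k h]
      norm_num
  have hzlt : ∀ n n' k, e n' < z n k → ∃ j, P n k j ∧ z n k = aa j k ∧ k ∈ Is (ζ j) := by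
    intro n n' k hlt
    by_cases h : ∃ j, P n k j
    · obtain ⟨j, hj⟩ := h
      refine ⟨j, hj, hz1 n k j hj, ?_⟩
      rw [hP] at hj
      exact hj.2.1
    · rw [hz0 n k h] at hlt
      exact absurd hlt (not_lt.2 (e_pos n').le)
  have hzK : ∀ n, z n ∈ K := by
    intro n
    refine ⟨hz01 n, ?_⟩
    intro n' s' F hF
    rcases Nat.lt_or_ge n' m with hn' | hn'
    · apply sum_le_one_of_subsing _ (fun k => (hz01 n k).2)
      intro k _ k' _ hk _
      exfalso
      obtain ⟨j, _, hzk, hkI⟩ := hzlt n n' k hk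
      rw [hzk] at hk
      have h1 := haa_le j k hkI
      have h2 : e s.1.length ≤ e n' := e_anti (by omega)
      linarith
    · by_cases hex : ∃ k0 ∈ F, e n' < z n k0
      · obtain ⟨k0, hk0F, hk0⟩ := hex
        obtain ⟨j0, hPj0, hzk0, hk0I⟩ := hzlt n n' k0 hk0
        rw [hzk0] at hk0
        have h0 := haapre j0 n' (hm1.trans hn') k0 hk0I hk0
        refine le_trans (Finset.sum_le_sum fun k hkF => ?_) ((haaK j0).2 n' s' F hF)
        rcases lt_or_ge (e n') (z n k) with hlt | hge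
        · obtain ⟨j, hPj, hzk, hkI⟩ := hzlt n n' k hlt
          rw [hzk] at hlt
          have h1 := haapre j n' (hm1.trans hn') k hkI hlt
          have h2 : pre (ii j).1 n' = pre (ii j0).1 n' := by
            rw [← h1, ← h0, hF k hkF, hF k0 hk0F]
          have h3 := pre_mono hn' h2
          rw [hii1, hii1] at h3
          have h4 : j = j0 := by simpa using h3
          rw [hzk, h4]
        · rw [max_eq_right (by linarith)]
          exact le_max_right _ _
      · push Not at hex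
        rw [Finset.sum_eq_zero (fun k hk => max_eq_right (by linarith [hex k hk]))]
        exact zero_le_one
  have hztend : ∀ k, Tendsto (fun n => z n k) atTop (𝓝 0) := by
    intro k
    refine tendsto_const_nhds.congr' ?_
    by_cases h : ∃ j, k ∈ Is (ζ j) ∧ aa j k ≠ 0
    · obtain ⟨j, hj1, hj2⟩ := h
      filter_upwards [eventually_gt_atTop j] with n hn
      symm
      apply hz0
      rintro ⟨j', hj'⟩
      rw [hP] at hj'
      have := huniq k j j' hj1 hj2 hj'.2.1 hj'.2.2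
      have h1 := hj'.1
      omega
    · filter_upwards with n
      symm
      apply hz0
      rintro ⟨j', hj'⟩
      rw [hP] at hj'
      exact h ⟨j', hj'.2⟩
  have hzagree : ∀ n j, n ≤ j → ∀ k ∈ Is (ζ j), z n k = aa j k := by
    intro n j hnj k hk
    by_cases h : aa j k = 0
    · rw [h]
      apply hz0
      rintro ⟨j', hj'⟩
      rw [hP] at hj'
      by_cases hjj : j' = j
      · rw [hjj] at hj'
        exact hj'.2.2 h
      · exact hj'.2.2 (haa0 j' j hjj k hk)
    · apply hz1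
      rw [hP]
      exact ⟨hnj, hk, h⟩
  obtain ⟨δ, hδ⟩ : ∃ δ : ℝ, δ = (1 / (N : ℝ)) * (1 / ((s.2 : ℝ) + 1)) := ⟨_, rfl⟩
  have hδ0 : 0 < δ := by rw [hδ]; positivity
  have hval : ∀ n j, n ≤ j → δ ≤ φ (ii j) (H (z n)) := by
    intro n j hnj
    have h1 : φ (ii j) (H (z n)) = φ (ii j) (H (aa j)) := by
      apply S.p2 (ii j) _ (hzK n) _ (haaK j)
      intro k hk
      rw [hii2] at hk
      exact hzagree n j hnj k hk
    rw [h1, hHaa, map_smul, S.val, smul_eq_mul, hδ]
    exact mul_le_mul_of_nonneg_left (hiin j) (by positivity)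
  -- Hahn-Banach
  obtain ⟨f, u, hf1, hf2⟩ := geometric_hahn_banach_open (convex_ball (0 : Y) δ) Metric.isOpen_ball
    (t := {y | ∃ j0 : ℕ, ∀ j, j0 ≤ j → δ ≤ φ (ii j) y}) (by
      intro y hy y' hy' α β hα hβ hαβ
      obtain ⟨j0, h0⟩ := hy
      obtain ⟨j1, h1⟩ := hy'
      refine ⟨max j0 j1, fun j hj => ?_⟩
      have h2 := h0 j ((le_max_left _ _).trans hj)
      have h3 := h1 j ((le_max_right _ _).trans hj)
      rw [map_add, map_smul, map_smul, smul_eq_mul, smul_eq_mul]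
      calc δ = α * δ + β * δ := by rw [← add_mul, hαβ, one_mul]
        _ ≤ _ := add_le_add (mul_le_mul_of_nonneg_left h2 hα) (mul_le_mul_of_nonneg_left h3 hβ))
    (by
      rw [Set.disjoint_left]
      rintro y hy ⟨j0, h0⟩
      have h1 := h0 j0 le_rfl
      have h2 := (φ (ii j0)).le_opNorm y
      have h3 : ‖φ (ii j0)‖ * ‖y‖ ≤ 1 * ‖y‖ :=
        mul_le_mul_of_nonneg_right (S.norm _) (norm_nonneg _)
      have h4 : φ (ii j0) y ≤ ‖φ (ii j0) y‖ := Real.le_norm_self _
      rw [mem_ball_zero_iff] at hy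
      linarith)
  have hu : 0 < u := by
    have := hf1 0 (Metric.mem_ball_self hδ0)
    rwa [map_zero] at this
  have hlim := S.seq z hzK hztend f
  have hge : u ≤ 0 := by
    refine ge_of_tendsto' hlim (fun n => ?_)
    exact hf2 _ ⟨n, fun j hj => hval n j hj⟩
  linarith

theorem Data.false (D : Data H) : False := by
  obtain ⟨A, Is, Ψ, φ, S⟩ := exists_sys D
  exact final_contra S

end

end Pool.Agent.Helper478.CE
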