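import Mathlib

set_option autoImplicit false

namespace Pool.Agent.Helper478.CE

open Set Cardinal

/-- Free set lemma (general form). -/
theorem exists_free_set_gen {L W : Type} [Infinite W] (hWL : #W < #L) (F : L → Set L)
    (hF : ∀ ξ, #(F ξ) < #W) :
    ∃ A : Set L, ¬ A.Countable ∧ ∀ ξ ∈ A, ∀ η ∈ A, ξ ≠ η → η ∉ F ξ := by
  classical
  by_contra hcon
  push Not at hcon
  have hW : ℵ₀ ≤ #W := Cardinal.aleph0_le_mk W
  let Free : Set L → Prop := fun A => ∀ ξ ∈ A, ∀ η ∈ A, ξ ≠ η → η ∉ F ξ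
  have hcount : ∀ A, Free A → A.Countable := by
    intro A hA
    by_contra h
    obtain ⟨ξ, hξ, η, hη, hne, hmem⟩ := hcon A h
    exact hA ξ hξ η hη hne hmem
  have hmax : ∀ X : Set L, ∃ M, M ⊆ X ∧ Free M ∧
      ∀ ξ ∈ X, ξ ∉ M → ∃ a ∈ M, a ∈ F ξ ∨ ξ ∈ F a := by
    intro X
    obtain ⟨M, hM⟩ := zorn_subset {A | A ⊆ X ∧ Free A} (by
      intro c hc hchain
      refine ⟨⋃₀ c, ⟨?_, ?_⟩, fun s hs => subset_sUnion_of_mem hs⟩
      · exact sUnion_subset fun s hs => (hc hs).1
      · intro ξ hξ η hη hne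
        obtain ⟨s, hs, hξs⟩ := hξ
        obtain ⟨t, ht, hηt⟩ := hη
        rcases hchain.total hs ht with h | h
        · exact (hc ht).2 ξ (h hξs) η hηt hne
        · exact (hc hs).2 ξ hξs η (h hηt) hne)
    refine ⟨M, hM.prop.1, hM.prop.2, ?_⟩
    intro ξ hξX hξM
    by_contra hno
    push Not at hno
    have hins : insert ξ M ∈ {A | A ⊆ X ∧ Free A} := by
      refine ⟨insert_subset hξX hM.prop.1, ?_⟩
      intro a ha b hb hne
      rcases ha with rfl | ha
      · rcases hb with rfl | hb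
        · exact absurd rfl hne
        · exact (hno b hb).1
      · rcases hb with rfl | hb
        · exact (hno a ha).2
        · exact hM.prop.2 a ha b hb hne
    exact hξM (hM.le_of_ge hins (subset_insert _ _) (mem_insert _ _))
  choose M hMX hMF hMm using hmax
  have wf : WellFounded (WellOrderingRel : W → W → Prop) := IsWellFounded.wf
  let A : W → Set L := wf.fix (fun w ih => M (⋃ (w') (h : WellOrderingRel w' w), ih w' h)ᶜ)
  have hA : ∀ w, A w = M (⋃ (w') (_ : WellOrderingRel w' w), A w')ᶜ := fun w => wf.fix_eq _ w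
  have hAc : ∀ w, (A w).Countable := by
    intro w
    rw [hA w]
    exact hcount _ (hMF _)
  have hAdisj : ∀ w w', WellOrderingRel w' w → Disjoint (A w) (A w') := by
    intro w w' h
    rw [Set.disjoint_left]
    intro a ha ha'
    rw [hA w] at ha
    have := hMX _ ha
    exact this (mem_iUnion₂.2 ⟨w', h, ha'⟩)
  let G : W → Set L := fun w => A w ∪ ⋃ a ∈ A w, F a
  have hGc : ∀ w, #(G w) ≤ #W := by
    intro w
    have h1 : #(A w) ≤ ℵ₀ := (hAc w).le_aleph0
    have h2 : #(⋃ a ∈ A w, F a : Set L) ≤ #W := by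
      refine (Cardinal.mk_biUnion_le _ _).trans ?_
      have h3 : (⨆ x : A w, #(F x.1)) ≤ #W := ciSup_le' fun x => (hF _).le
      calc #(A w) * (⨆ x : A w, #(F x.1)) ≤ ℵ₀ * #W := mul_le_mul' h1 h3
        _ = #W := Cardinal.aleph0_mul_eq hW
    exact (Cardinal.mk_union_le _ _).trans
      ((add_le_add (h1.trans hW) h2).trans (Cardinal.add_eq_self hW).le)
  have hV : #(⋃ w, G w : Set L) ≤ #W := by
    refine (Cardinal.mk_iUnion_le _).trans ?_
    calc #W * (⨆ w, #(G w)) ≤ #W * #W := mul_le_mul' le_rfl (ciSup_le' hGc)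
      _ = #W := Cardinal.mul_eq_self hW
  have hex : ∃ ξ, ξ ∉ (⋃ w, G w : Set L) := by
    by_contra hno
    push Not at hno
    have : (⋃ w, G w : Set L) = Set.univ := eq_univ_of_forall hno
    rw [this, Cardinal.mk_univ] at hV
    exact absurd hV (not_le.2 hWL)
  obtain ⟨ξ, hξ⟩ := hex
  rw [mem_iUnion] at hξ
  push Not at hξ
  have hξA : ∀ w, ξ ∉ A w := fun w h => hξ w (Or.inl h)
  have hξF : ∀ w, ∀ a ∈ A w, ξ ∉ F a := fun w a ha h =>
    hξ w (Or.inr (mem_iUnion₂.2 ⟨a, ha, h⟩))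
  have hsel : ∀ w, ∃ a ∈ A w, a ∈ F ξ := by
    intro w
    have h1 : ξ ∈ (⋃ (w') (_ : WellOrderingRel w' w), A w')ᶜ := by
      intro h
      obtain ⟨w', _, h'⟩ := mem_iUnion₂.1 h
      exact hξA w' h'
    have h2 : ξ ∉ M (⋃ (w') (_ : WellOrderingRel w' w), A w')ᶜ := by
      rw [← hA w]
      exact hξA w
    obtain ⟨a, ha, h⟩ := hMm _ ξ h1 h2
    rw [← hA w] at ha
    rcases h with h | h
    · exact ⟨a, ha, h⟩
    · exact absurd h (hξF w a ha)
  choose a haA haF using hsel
  have hinj : Function.Injective (fun w => (⟨a w, haF w⟩ : F ξ)) := by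
    intro w w' h
    have h' : a w = a w' := congrArg Subtype.val h
    by_contra hne
    rcases trichotomous_of (WellOrderingRel : W → W → Prop) w w' with h1 | h1 | h1
    · exact Set.disjoint_left.1 (hAdisj w' w h1) (h' ▸ haA w') (h' ▸ haA w)
    · exact hne h1
    · exact Set.disjoint_left.1 (hAdisj w w' h1) (haA w) (h' ▸ haA w')
  have := Cardinal.mk_le_of_injective hinj
  exact absurd (hF ξ) (not_lt.2 this)

/-- Free set lemma: if each `F ξ` has at most as many elements as `B`, then (as `#L` is large)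
there is an uncountable set of labels which is free for `F`. -/
theorem exists_free_set {B : Type} [Infinite B] (F : Set (Set B) → Set (Set (Set B)))
    (hF : ∀ ξ, #(F ξ) ≤ #B) :
    ∃ A : Set (Set (Set B)), ¬ A.Countable ∧ ∀ ξ ∈ A, ∀ η ∈ A, ξ ≠ η → η ∉ F ξ := by
  have h1 : #(Set B) < #(Set (Set B)) := by
    rw [Cardinal.mk_set (α := Set B)]
    exact Cardinal.cantor _
  have h2 : #B < #(Set B) := by
    rw [Cardinal.mk_set]
    exact Cardinal.cantor _
  have : Infinite (Set B) := inferInstance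
  exact exists_free_set_gen (W := Set B) h1 F (fun ξ => (hF ξ).trans_lt h2)

end Pool.Agent.Helper478.CE
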