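import Pool.Agent.Helper478.CE.Defs

set_option autoImplicit false

namespace Pool.Agent.Helper478.CE

open Set

theorem pre_length (b : B) (n : ℕ) : (pre b n).length = n := by
  simp [pre]

theorem pre_succ (b : B) (n : ℕ) : pre b (n + 1) = pre b n ++ [b n] := by
  simp [pre, List.range_succ]

theorem pre_eq_iff (b b' : B) (n : ℕ) : pre b n = pre b' n ↔ ∀ j < n, b j = b' j := by
  constructor
  · intro h j hj
    have h1 : (List.range n).map b = (List.range n).map b' := h
    rw [List.map_inj_left] at h1
    exact h1 j (List.mem_range.2 hj)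
  · intro h
    show (List.range n).map b = (List.range n).map b'
    rw [List.map_inj_left]
    intro j hj
    exact h j (List.mem_range.1 hj)

theorem pre_mono {b b' : B} {m n : ℕ} (h : m ≤ n) (h' : pre b n = pre b' n) :
    pre b m = pre b' m := by
  rw [pre_eq_iff] at h' ⊢
  exact fun j hj => h' j (lt_of_lt_of_le hj h)

theorem e_pos (n : ℕ) : 0 < e n := by
  unfold e
  positivity

theorem e_anti {m n : ℕ} (h : m ≤ n) : e n ≤ e m := by
  unfold e
  exact pow_le_pow_of_le_one (by norm_num) (by norm_num) h

theorem e_le_one (n : ℕ) : e n ≤ 1 := by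
  have := e_anti (Nat.zero_le n)
  simpa [e] using this

theorem e_succ (n : ℕ) : e (n + 1) = e n / 2 := by
  unfold e
  rw [pow_succ]
  ring

theorem pow_mul_e (n : ℕ) : (2 : ℝ) ^ n * e n = 1 := by
  unfold e
  rw [← mul_pow]
  norm_num

open Classical in
/-- The unit vectors. -/
noncomputable def chi (i : I) : I → ℝ := fun j => if j = i then 1 else 0

theorem chi_self (i : I) : chi i i = 1 := by simp [chi]

theorem chi_ne {i j : I} (h : j ≠ i) : chi i j = 0 := by simp [chi, h]

theorem solid {f g : I → ℝ} (hf : f ∈ K) (h0 : ∀ i, 0 ≤ g i) (hgf : ∀ i, g i ≤ f i) :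
    g ∈ K := by
  refine ⟨fun i => ⟨h0 i, (hgf i).trans (hf.1 i).2⟩, ?_⟩
  intro n s F hF
  refine le_trans (Finset.sum_le_sum fun i _ => ?_) (hf.2 n s F hF)
  exact max_le_max (by linarith [hgf i]) le_rfl

theorem sum_le_one_of_subsing (f : I → ℝ) (h1 : ∀ i, f i ≤ 1) (n : ℕ) (F : Finset I)
    (h : ∀ i ∈ F, ∀ j ∈ F, e n < f i → e n < f j → i = j) :
    ∑ i ∈ F, max (f i - e n) 0 ≤ 1 := by
  classical
  by_cases hex : ∃ i ∈ F, e n < f i
  · obtain ⟨i, hi, hfi⟩ := hex
    have : ∑ j ∈ F, max (f j - e n) 0 = max (f i - e n) 0 := by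
      refine Finset.sum_eq_single_of_mem i hi ?_
      intro j hj hne
      rcases lt_or_ge (e n) (f j) with h' | h'
      · exact absurd (h j hj i hi h' hfi) hne
      · exact max_eq_right (by linarith)
    rw [this]
    exact max_le (by have := e_pos n; have := h1 i; linarith) zero_le_one
  · push Not at hex
    rw [Finset.sum_eq_zero (fun j hj => max_eq_right (by linarith [hex j hj]))]
    exact zero_le_one

theorem chi_mem (i : I) : chi i ∈ K := by
  refine ⟨fun j => ?_, ?_⟩
  · by_cases h : j = i
    · rw [h, chi_self]; norm_num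
    · rw [chi_ne h]; norm_num
  · intro n s F _
    apply sum_le_one_of_subsing
    · intro j
      by_cases h : j = i
      · rw [h, chi_self]
      · rw [chi_ne h]; norm_num
    · intro j _ j' _ hj hj'
      have h1 : j = i := by
        by_contra h
        rw [chi_ne h] at hj
        linarith [e_pos n]
      have h2 : j' = i := by
        by_contra h
        rw [chi_ne h] at hj'
        linarith [e_pos n]
      rw [h1, h2]

theorem zero_mem : (0 : I → ℝ) ∈ K := by
  have i : I := (fun _ => 0, ∅)
  refine solid (chi_mem i) (fun _ => le_rfl) (fun j => ?_)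
  by_cases h : j = i
  · rw [h, chi_self]; norm_num
  · rw [chi_ne h]; rfl

/-- The points through the node `c|m`. -/
def bq (c : B) (m q : ℕ) : B := fun j => if j < m then c j else if j = m then q else 0

theorem pre_bq (c : B) (m q : ℕ) : pre (bq c m q) m = pre c m := by
  rw [pre_eq_iff]
  intro j hj
  simp [bq, hj]

theorem bq_inj {c : B} {m q q' n : ℕ} (hn : m < n) (h : pre (bq c m q) n = pre (bq c m q') n) :
    q = q' := by
  rw [pre_eq_iff] at h
  have := h m hn
  simpa [bq] using this

open Classical in
/-- The finite set carrying `xx`. -/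
noncomputable def XX (c : B) (m : ℕ) (η : L) : Finset I :=
  (Finset.range (2 ^ m)).image (fun q => ((bq c m q, η) : I))

theorem XX_card (c : B) (m : ℕ) (η : L) : (XX c m η).card = 2 ^ m := by
  classical
  unfold XX
  rw [Finset.card_image_of_injective, Finset.card_range]
  intro q q' h
  have h1 : bq c m q = bq c m q' := congrArg Prod.fst h
  exact bq_inj (Nat.lt_succ_self m) (by rw [h1])

theorem mem_XX {c : B} {m : ℕ} {η : L} {j : I} (h : j ∈ XX c m η) :
    ∃ q, j = (bq c m q, η) := by
  classical
  unfold XX at h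
  rw [Finset.mem_image] at h
  obtain ⟨q, _, hq⟩ := h
  exact ⟨q, hq.symm⟩

open Classical in
/-- The vector `x`. -/
noncomputable def xx (c : B) (m : ℕ) (η : L) : I → ℝ :=
  fun j => if j ∈ XX c m η then 2 * e m else 0

theorem xx_add_mem (c : B) (m : ℕ) (hm : 1 ≤ m) (η : L) (i : I) (hi : i.2 ≠ η)
    (hpre : pre i.1 m ≠ pre c m) : xx c m η + chi i ∈ K := by
  classical
  obtain ⟨m, rfl⟩ : ∃ k, m = k + 1 := ⟨m - 1, by omega⟩
  have hiX : i ∉ XX c (m + 1) η := by
    intro h
    obtain ⟨q, hq⟩ := mem_XX h
    exact hi (by rw [hq])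
  have hval : ∀ j, (xx c (m + 1) η + chi i) j
      = if j = i then 1 else if j ∈ XX c (m + 1) η then e m else 0 := by
    intro j
    show xx c (m + 1) η j + chi i j = _
    by_cases hj : j = i
    · rw [if_pos hj, hj, chi_self]
      simp [xx, hiX]
    · rw [if_neg hj, chi_ne hj, add_zero]
      unfold xx
      rw [e_succ]
      by_cases h : j ∈ XX c (m + 1) η
      · rw [if_pos h, if_pos h]; ring
      · rw [if_neg h, if_neg h]
  have h01 : ∀ j, 0 ≤ (xx c (m + 1) η + chi i) j ∧ (xx c (m + 1) η + chi i) j ≤ 1 := by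
    intro j
    rw [hval]
    split_ifs
    · norm_num
    · exact ⟨(e_pos m).le, e_le_one m⟩
    · norm_num
  refine ⟨h01, ?_⟩
  intro n s F hF
  have hmem : ∀ j, ∀ n, e n < (xx c (m + 1) η + chi i) j → j = i ∨ (j ∈ XX c (m + 1) η ∧ e n < e m) := by
    intro j n hj
    rw [hval] at hj
    split_ifs at hj with h1 h2
    · exact Or.inl h1
    · exact Or.inr ⟨h2, hj⟩
    · exact absurd hj (not_lt.2 (e_pos n).le)
  rcases lt_trichotomy n (m + 1) with hn | hn | hn
  · -- only `i` contributes
    apply sum_le_one_of_subsing _ (fun j => (h01 j).2)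
    intro j _ j' _ hj hj'
    have hle : e m ≤ e n := e_anti (by omega)
    rcases hmem j n hj with h | ⟨_, h⟩
    · rcases hmem j' n hj' with h' | ⟨_, h'⟩
      · rw [h, h']
      · exact absurd h' (not_lt.2 hle)
    · exact absurd h (not_lt.2 hle)
  · subst hn
    by_cases hiF : i ∈ F
    · apply sum_le_one_of_subsing _ (fun j => (h01 j).2)
      have key : ∀ j ∈ F, e (m + 1) < (xx c (m + 1) η + chi i) j → j = i := by
        intro j hjF hj
        rcases hmem j _ hj with h | ⟨h, _⟩
        · exact h
        · exfalso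
          obtain ⟨q, hq⟩ := mem_XX h
          have h1 := hF j hjF
          have h2 := hF i hiF
          rw [hq] at h1
          have h3 : pre (bq c (m + 1) q) (m + 1) = s := h1
          rw [pre_bq] at h3
          exact hpre (h2.trans h3.symm)
      intro j hjF j' hjF' hj hj'
      rw [key j hjF hj, key j' hjF' hj']
    · calc ∑ j ∈ F, max ((xx c (m + 1) η + chi i) j - e (m + 1)) 0
          ≤ ∑ j ∈ F, (if j ∈ XX c (m + 1) η then e (m + 1) else 0) := by
            refine Finset.sum_le_sum fun j hj => ?_
            rw [hval]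
            have hji : j ≠ i := fun h => hiF (h ▸ hj)
            rw [if_neg hji]
            have h1 := e_succ m
            have h2 := e_pos (m + 1)
            split_ifs
            · exact max_le (by linarith) h2.le
            · exact max_le (by linarith) le_rfl
        _ = ∑ j ∈ F.filter (fun j => j ∈ XX c (m + 1) η), e (m + 1) := by
            rw [Finset.sum_filter]
        _ = (F.filter (fun j => j ∈ XX c (m + 1) η)).card * e (m + 1) := by
            rw [Finset.sum_const, nsmul_eq_mul]
        _ ≤ (2 : ℝ) ^ (m + 1) * e (m + 1) := by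
            refine mul_le_mul_of_nonneg_right ?_ (e_pos _).le
            have : (F.filter (fun j => j ∈ XX c (m + 1) η)).card ≤ (XX c (m + 1) η).card :=
              Finset.card_le_card fun j hj => (Finset.mem_filter.1 hj).2
            rw [XX_card] at this
            exact_mod_cast this
        _ = 1 := pow_mul_e _
  · apply sum_le_one_of_subsing _ (fun j => (h01 j).2)
    intro j hjF j' hjF' hj hj'
    have hjp := hF j hjF
    have hjp' := hF j' hjF'
    rcases hmem j n hj with h | ⟨h, _⟩
    · rcases hmem j' n hj' with h' | ⟨h', _⟩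
      · rw [h, h']
      · exfalso
        obtain ⟨q, hq⟩ := mem_XX h'
        rw [hq] at hjp'
        rw [h] at hjp
        have h3 : pre i.1 n = pre (bq c (m + 1) q) n := hjp.trans hjp'.symm
        have h4 := pre_mono hn.le h3
        rw [pre_bq] at h4
        exact hpre h4
    · obtain ⟨q, hq⟩ := mem_XX h
      rcases hmem j' n hj' with h' | ⟨h', _⟩
      · exfalso
        rw [hq] at hjp
        rw [h'] at hjp'
        have h3 : pre i.1 n = pre (bq c (m + 1) q) n := hjp'.trans hjp.symm
        have h4 := pre_mono hn.le h3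
        rw [pre_bq] at h4
        exact hpre h4
      · obtain ⟨q', hq'⟩ := mem_XX h'
        rw [hq] at hjp
        rw [hq'] at hjp'
        have h3 : pre (bq c (m + 1) q) n = pre (bq c (m + 1) q') n := hjp.trans hjp'.symm
        rw [hq, hq', bq_inj hn h3]

theorem xx_mem (c : B) (m : ℕ) (hm : 1 ≤ m) (η : L) (i : I) (hi : i.2 ≠ η)
    (hpre : pre i.1 m ≠ pre c m) : xx c m η ∈ K := by
  refine solid (xx_add_mem c m hm η i hi hpre) (fun j => ?_) (fun j => ?_)
  · unfold xx
    split_ifs
    · linarith [e_pos m]
    · exact le_rfl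
  · show xx c m η j ≤ xx c m η j + chi i j
    have : 0 ≤ chi i j := ((chi_mem i).1 j).1
    linarith

theorem key2 (p : I → ℝ) (hp : p ∈ K) (c : B) (m : ℕ) (η : L)
    (h : ∀ j ∈ XX c m η, p j = 2 * e m) (i : I) (hi : i ∉ XX c m η)
    (hc : pre i.1 m = pre c m) : p i ≤ e m := by
  classical
  have h1 := hp.2 m (pre c m) (insert i (XX c m η)) (by
    intro j hj
    rcases Finset.mem_insert.1 hj with rfl | hj
    · exact hc
    · obtain ⟨q, rfl⟩ := mem_XX hj
      exact pre_bq c m q)
  rw [Finset.sum_insert hi] at h1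
  have h2 : ∑ j ∈ XX c m η, max (p j - e m) 0 = 1 := by
    rw [Finset.sum_congr rfl (fun j hj => by
      rw [h j hj, show 2 * e m - e m = e m by ring, max_eq_left (e_pos m).le])]
    rw [Finset.sum_const, XX_card, nsmul_eq_mul]
    have := pow_mul_e m
    push_cast
    exact this
  rw [h2] at h1
  have h3 : max (p i - e m) 0 ≤ 0 := by linarith
  have h4 := (le_max_left (p i - e m) 0).trans h3
  linarith

end Pool.Agent.Helper478.CE
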