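import Pool.Agent.Helper478.CE.KLem
import Pool.Agent.Helper478.CE.Free

set_option autoImplicit false

namespace Pool.Agent.Helper478.CE

open Set Filter Topology Cardinal

/-- What we know about an affine-image-convex embedding `H` of `K` (with `H 0 = 0`). -/
structure Data {Y : Type} [NormedAddCommGroup Y] [NormedSpace ℝ Y] (H : (I → ℝ) → Y) : Prop where
  zero : H 0 = 0
  conv : Convex ℝ (H '' K)
  depH : ∀ φ : Y →L[ℝ] ℝ, ∃ J : Set I, J.Countable ∧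
    ∀ f ∈ K, ∀ f' ∈ K, (∀ i ∈ J, f i = f' i) → φ (H f) = φ (H f')
  depg : ∀ i : I, ∃ Φ : Set (Y →L[ℝ] ℝ), Φ.Countable ∧
    ∀ f ∈ K, ∀ f' ∈ K, (∀ φ ∈ Φ, φ (H f) = φ (H f')) → f i = f' i
  seq : ∀ z : ℕ → I → ℝ, (∀ n, z n ∈ K) → (∀ i, Tendsto (fun n => z n i) atTop (𝓝 0)) →
    ∀ φ : Y →L[ℝ] ℝ, Tendsto (fun n => φ (H (z n))) atTop (𝓝 0)

/-- The closed-off system. -/
structure Sys {Y : Type} [NormedAddCommGroup Y] [NormedSpace ℝ Y] (H : (I → ℝ) → Y)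
    (A : Set L) (Is : L → Set I) (Ψ : L → Set (Y →L[ℝ] ℝ)) (φ : I → Y →L[ℝ] ℝ) : Prop where
  zero : H 0 = 0
  conv : Convex ℝ (H '' K)
  seq : ∀ z : ℕ → I → ℝ, (∀ n, z n ∈ K) → (∀ i, Tendsto (fun n => z n i) atTop (𝓝 0)) →
    ∀ φ : Y →L[ℝ] ℝ, Tendsto (fun n => φ (H (z n))) atTop (𝓝 0)
  ne : ∀ i, H (chi i) ≠ 0
  unc : ¬ A.Countable
  mem : ∀ i : I, i ∈ Is i.2
  free : ∀ ξ ∈ A, ∀ η ∈ A, ξ ≠ η → ∀ i ∈ Is ξ, i.2 ≠ η
  norm : ∀ i, ‖φ i‖ ≤ 1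
  val : ∀ i, φ i (H (chi i)) = ‖H (chi i)‖
  p2 : ∀ i, ∀ f ∈ K, ∀ f' ∈ K, (∀ j ∈ Is i.2, f j = f' j) → φ i (H f) = φ i (H f')
  p2' : ∀ ξ, ∀ ψ ∈ Ψ ξ, ∀ f ∈ K, ∀ f' ∈ K, (∀ j ∈ Is ξ, f j = f' j) → ψ (H f) = ψ (H f')
  p3 : ∀ ξ, ∀ f ∈ K, ∀ f' ∈ K, (∀ ψ ∈ Ψ ξ, ψ (H f) = ψ (H f')) → ∀ j ∈ Is ξ, f j = f' j

/-- Iterated reach. -/
def It (T : I → Set I) (ξ : L) : ℕ → Set I
  | 0 => {i | i.2 = ξ}
  | n + 1 => ⋃ j ∈ It T ξ n, T j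

theorem It_card (T : I → Set I) (hT : ∀ i, (T i).Countable) (ξ : L) (n : ℕ) :
    #(It T ξ n) ≤ #B := by
  have hB : ℵ₀ ≤ #B := Cardinal.aleph0_le_mk B
  induction n with
  | zero =>
    have : Function.Injective (fun i : It T ξ 0 => i.1.1) := by
      intro i j h
      have hi : i.1.2 = ξ := i.2
      have hj : j.1.2 = ξ := j.2
      exact Subtype.ext (Prod.ext h (hi.trans hj.symm))
    exact Cardinal.mk_le_of_injective this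
  | succ n ih =>
    show #(⋃ j ∈ It T ξ n, T j : Set I) ≤ #B
    refine (Cardinal.mk_biUnion_le _ _).trans ?_
    have h3 : (⨆ x : It T ξ n, #(T x.1)) ≤ #B :=
      ciSup_le' fun x => (hT _).le_aleph0.trans hB
    calc #(It T ξ n) * (⨆ x : It T ξ n, #(T x.1)) ≤ #B * #B := mul_le_mul' ih h3
      _ = #B := Cardinal.mul_eq_self hB

theorem exists_sys {Y : Type} [NormedAddCommGroup Y] [NormedSpace ℝ Y] {H : (I → ℝ) → Y}
    (D : Data H) : ∃ A Is Ψ φ, Sys H A Is Ψ φ := by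
  classical
  choose J hJc hJ using D.depH
  choose Φ hΦc hΦ using D.depg
  choose φ hφ1 hφ2 using fun i => exists_dual_vector'' ℝ (H (chi i))
  let T : I → Set I := fun i => ⋃ ψ ∈ insert (φ i) (Φ i), J ψ
  have hT : ∀ i, (T i).Countable := by
    intro i
    exact ((hΦc i).insert _).biUnion fun ψ _ => hJc ψ
  let Is : L → Set I := fun ξ => ⋃ n, It T ξ n
  have hIs : ∀ ξ, ∀ i ∈ Is ξ, T i ⊆ Is ξ := by
    intro ξ i hi j hj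
    obtain ⟨n, hn⟩ := mem_iUnion.1 hi
    refine mem_iUnion.2 ⟨n + 1, ?_⟩
    exact mem_iUnion₂.2 ⟨i, hn, hj⟩
  have hmem : ∀ i : I, i ∈ Is i.2 := fun i => mem_iUnion.2 ⟨0, rfl⟩
  have hB : ℵ₀ ≤ #B := Cardinal.aleph0_le_mk B
  have hcard : ∀ ξ, #(Prod.snd '' Is ξ : Set L) ≤ #B := by
    intro ξ
    refine Cardinal.mk_image_le.trans ?_
    refine (Cardinal.mk_iUnion_le_sum_mk).trans ?_
    refine (Cardinal.sum_le_sum _ (fun _ : ℕ => #B) (fun n => It_card T hT ξ n)).trans ?_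
    rw [Cardinal.sum_const]
    simp only [Cardinal.lift_id, Cardinal.mk_nat, Cardinal.lift_uzero]
    exact (Cardinal.aleph0_mul_eq hB).le
  obtain ⟨A, hA, hfree⟩ := exists_free_set (B := B) (fun ξ => Prod.snd '' Is ξ) hcard
  refine ⟨A, Is, fun ξ => ⋃ i ∈ Is ξ, Φ i, φ, ?_⟩
  refine ⟨D.zero, D.conv, D.seq, ?_, hA, hmem, ?_, hφ1, ?_, ?_, ?_, ?_⟩
  · intro i h
    have h1 := hΦ i (chi i) (chi_mem i) 0 zero_mem (fun ψ _ => by rw [h, D.zero])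
    rw [chi_self] at h1
    exact one_ne_zero h1
  · intro ξ hξ η hη hne i hi h
    exact hfree ξ hξ η hη hne ⟨i, hi, h⟩
  · intro i
    exact hφ2 i
  · intro i f hf f' hf' h
    apply hJ (φ i) f hf f' hf'
    intro j hj
    apply h j
    apply hIs _ i (hmem i)
    exact mem_iUnion₂.2 ⟨φ i, mem_insert _ _, hj⟩
  · intro ξ ψ hψ f hf f' hf' h
    obtain ⟨i, hi, hψi⟩ := mem_iUnion₂.1 hψ
    apply hJ ψ f hf f' hf'
    intro j hj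
    apply h j
    apply hIs _ i hi
    exact mem_iUnion₂.2 ⟨ψ, mem_insert_of_mem _ hψi, hj⟩
  · intro ξ f hf f' hf' h j hj
    apply hΦ j f hf f' hf'
    intro ψ hψ
    exact h ψ (mem_iUnion₂.2 ⟨j, hj, hψ⟩)

end Pool.Agent.Helper478.CE
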