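import Pool.Agent.Helper478.CE.Final
import Pool.Agent.Helper358.CE.Embed
import Pool.Agent.Helper358.CE.Dep

set_option autoImplicit false

namespace Pool.Agent.Helper478.CE

open Set Filter Topology

section

variable {Y : Type} [NormedAddCommGroup Y] [NormedSpace ℝ Y]

theorem wcont (φ : Y →L[ℝ] ℝ) :
    Continuous (fun x : WeakSpace ℝ Y => φ ((toWeakSpace ℝ Y).symm x)) :=
  WeakBilin.eval_continuous (topDualPairing ℝ Y).flip φ

open Classical in
/-- The map underlying a homeomorphism of `K` with a set in a weak space. -/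
noncomputable def H0 {C : Set (WeakSpace ℝ Y)} (h : K ≃ₜ C) (f : I → ℝ) : Y :=
  if hf : f ∈ K then (toWeakSpace ℝ Y).symm (h ⟨f, hf⟩).1 else 0

theorem H0_eq {C : Set (WeakSpace ℝ Y)} (h : K ≃ₜ C) (f : K) :
    H0 h f.1 = (toWeakSpace ℝ Y).symm (h f).1 := by
  unfold H0
  rw [dif_pos f.2]

/-- The continuous function `φ ∘ H0` on `K`. -/
noncomputable def GH {C : Set (WeakSpace ℝ Y)} (h : K ≃ₜ C) (φ : Y →L[ℝ] ℝ) : C(K, ℝ) where
  toFun f := φ (H0 h f.1)
  continuous_toFun := by
    have h1 : (fun f : K => φ (H0 h f.1))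
        = fun f : K => φ ((toWeakSpace ℝ Y).symm (h f).1) := by
      funext f
      rw [H0_eq]
    rw [h1]
    exact (wcont φ).comp (continuous_subtype_val.comp h.continuous)

/-- The coordinate functions on `K`. -/
def GC (i : I) : C(K, ℝ) where
  toFun f := f.1 i
  continuous_toFun := (continuous_apply i).comp continuous_subtype_val

theorem data_of_homeo {C : Set (WeakSpace ℝ Y)} (hC : Convex ℝ C) (h : K ≃ₜ C) :
    Data (fun f => H0 h f - H0 h 0) := by
  have hK : CompactSpace K := isCompact_iff_compactSpace.1 Helper358.CE.K_compact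
  refine ⟨sub_self _, ?_, ?_, ?_, ?_⟩
  · rintro _ ⟨f, hf, rfl⟩ _ ⟨g, hg, rfl⟩ a b ha hb hab
    have h1 := hC (h ⟨f, hf⟩).2 (h ⟨g, hg⟩).2 ha hb hab
    refine ⟨(h.symm ⟨_, h1⟩).1, (h.symm ⟨_, h1⟩).2, ?_⟩
    show H0 h (h.symm ⟨_, h1⟩).1 - H0 h 0 = a • (H0 h f - H0 h 0) + b • (H0 h g - H0 h 0)
    have h2 : H0 h (h.symm ⟨_, h1⟩).1 = a • H0 h f + b • H0 h g := by
      rw [H0_eq, Homeomorph.apply_symm_apply, H0_eq h ⟨f, hf⟩, H0_eq h ⟨g, hg⟩]
      rw [map_add, map_smul, map_smul]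
    rw [h2, smul_sub, smul_sub]
    have h3 : H0 h 0 = a • H0 h 0 + b • H0 h 0 := by rw [← add_smul, hab, one_smul]
    nth_rewrite 1 [h3]
    abel
  · intro φ
    obtain ⟨J, hJ, hdep⟩ := Helper358.CE.exists_countable_dep (Z := K) GC (by
      intro z z' hne
      by_contra hcon
      push Not at hcon
      exact hne (Subtype.ext (funext hcon))) (GH h φ)
    refine ⟨J, hJ, ?_⟩
    intro f hf f' hf' hag
    have := hdep ⟨f, hf⟩ ⟨f', hf'⟩ hag
    have h1 : φ (H0 h f) = φ (H0 h f') := this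
    rw [map_sub, map_sub, h1]
  · intro i
    obtain ⟨Φ, hΦ, hdep⟩ := Helper358.CE.exists_countable_dep (Z := K) (GH h) (by
      intro z z' hne
      by_contra hcon
      push Not at hcon
      apply hne
      apply h.injective
      apply Subtype.ext
      apply (toWeakSpace ℝ Y).symm.injective
      rw [← H0_eq, ← H0_eq]
      rw [← sub_eq_zero]
      apply SeparatingDual.eq_zero_of_forall_dual_eq_zero (R := ℝ)
      intro φ
      have := hcon φ
      have h1 : φ (H0 h z.1) = φ (H0 h z'.1) := this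
      rw [map_sub, h1, sub_self]) (GC i)
    refine ⟨Φ, hΦ, ?_⟩
    intro f hf f' hf' hag
    have := hdep ⟨f, hf⟩ ⟨f', hf'⟩ (by
      intro φ hφ
      have h1 := hag φ hφ
      rw [map_sub, map_sub] at h1
      show φ (H0 h f) = φ (H0 h f')
      linarith)
    exact this
  · intro z hz hz0 φ
    have h1 : Tendsto (fun n => (⟨z n, hz n⟩ : K)) atTop (𝓝 ⟨0, zero_mem⟩) := by
      rw [tendsto_subtype_rng]
      exact tendsto_pi_nhds.2 hz0
    have h2 := ((GH h φ).continuous.tendsto ⟨0, zero_mem⟩).comp h1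
    have h3 : Tendsto (fun n => φ (H0 h (z n))) atTop (𝓝 (φ (H0 h 0))) := h2
    have h4 := h3.sub_const (φ (H0 h 0))
    rw [sub_self] at h4
    refine h4.congr fun n => ?_
    rw [map_sub]

theorem no_homeo {C : Set (WeakSpace ℝ Y)} (hC : Convex ℝ C) (h : K ≃ₜ C) : False :=
  (data_of_homeo hC h).false

end

end Pool.Agent.Helper478.CE
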